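import Pool.Agent.H322R2.YFin3
import Pool.Agent.V35.WM

/-!
# Integer points on all curves near almost all rays of the space of plane curves

Let `d ≥ 5` and let `V = ℝ ^ M`, `M = (d + 1) (d + 2) / 2`, be the space of real polynomials in two variables of degree at
most `d`. Let `0 ≤ θ < 1 - (4 d - 2) / (M - 1)`. For Lebesgue-almost all `α ∈ V` all but finitely many of the polynomials
`F ∈ ℤ[x, y]` of degree `d`, irreducible over `ℚ` and with squarefree leading form, which lie at distance at most `r ^ θ`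
from one of the points `r • α` of the ray through `α`, satisfy `max(|x|, |y|) ≤ ((d + 1) h(F)) ^ C` for all their integer
zeros `(x, y)`, `C = 10 ^ 11 * 36 ^ d * (d + 1) ^ 13`; the exceptional `α` have dimension at most
`1 + (4 d - 2) / (1 - θ)`.
-/

set_option autoImplicit false

open Finset Filter Topology MeasureTheory

namespace Pool.Agent.Results.MP_821da1_nt.AlmostAllDirections

open Pool.Agent.H322R2 Pool.Agent.V35.WM

/-- the coefficients of `F` at the monomials of degree at most `d`; the index set `Ix d` consists of the pairs `(i, j)` of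
natural numbers with `i + j ≤ d` -/
noncomputable def vec (d : ℕ) (F : MvPolynomial (Fin 2) ℤ) : ↥(Ix d) → ℝ :=
  fun p => ((F.coeff (Finsupp.single 0 p.1.1 + Finsupp.single 1 p.1.2) : ℤ) : ℝ)

/-- the exponent of the bound -/
def expo (d : ℕ) : ℕ := 10 ^ 11 * 36 ^ d * (d + 1) ^ 13

/-- The polynomials of degree `d`, irreducible over `ℚ`, with a leading form which is squarefree over `ℚ`, which have an
integer zero `(x, y)` with `max(|x|, |y|) > ((d + 1) h(F)) ^ expo d`, where `h(F)` is the sum of the absolute values of the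
coefficients of `F`. -/
def Exc (d : ℕ) : Set (MvPolynomial (Fin 2) ℤ) :=
  {F | F.totalDegree = d ∧ Irreducible (MvPolynomial.map (Int.castRingHom ℚ) F) ∧
    Squarefree (MvPolynomial.map (Int.castRingHom ℚ) (MvPolynomial.homogeneousComponent d F)) ∧
    ∃ x y : ℤ, MvPolynomial.eval ![x, y] F = 0 ∧
      ((d + 1) * ∑ m ∈ F.support, (F.coeff m).natAbs) ^ expo d < max x.natAbs y.natAbs}

lemma coeff_le {d : ℕ} {F : MvPolynomial (Fin 2) ℤ} {X : ℝ} (hX : 0 ≤ X) (hF : F.totalDegree = d)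
    (h : ‖vec d F‖ ≤ X) (m : Fin 2 →₀ ℕ) : |F.coeff m| ≤ ((⌊X⌋₊ : ℕ) : ℤ) := by
  have hm : m = Finsupp.single 0 (m 0) + Finsupp.single 1 (m 1) := by
    ext i
    fin_cases i <;> simp
  by_cases hd : m 0 + m 1 ≤ d
  · have h1 := (pi_norm_le_iff_of_nonneg hX).1 h ⟨(m 0, m 1), mem_Ix.2 hd⟩
    rw [vec] at h1
    simp only at h1
    rw [← hm, Real.norm_eq_abs, ← Int.cast_abs] at h1
    have h2 : (((F.coeff m).natAbs : ℕ) : ℝ) ≤ X := by
      rw [Nat.cast_natAbs]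
      exact h1
    have h3 : (F.coeff m).natAbs ≤ ⌊X⌋₊ := Nat.le_floor h2
    rw [Int.abs_eq_natAbs]
    exact_mod_cast h3
  · have h0 : F.coeff m = 0 := by
      by_contra hne
      have h1 : m ∈ F.support := MvPolynomial.mem_support_iff.2 hne
      have h2 := MvPolynomial.le_totalDegree h1
      rw [hF] at h2
      have h3 : (m.sum fun _ e => e) = m 0 + m 1 := by
        rw [Finsupp.sum_fintype _ _ (fun _ => rfl), Fin.sum_univ_two]
      omega
    rw [h0, abs_zero]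
    positivity

lemma exc_bound {d : ℕ} (hd : 4 ≤ d) (X : ℝ) (hX : 1 ≤ X) :
    {F | F ∈ Exc d ∧ ‖vec d F‖ ≤ X}.Finite ∧
      ({F | F ∈ Exc d ∧ ‖vec d F‖ ≤ X}.ncard : ℝ) ≤
        (10 ^ 9 * 36 ^ d * (d + 1) ^ 8 * 3 ^ (4 * d - 2) : ℕ) * X ^ ((4 : ℝ) * d - 2) := by
  classical
  obtain ⟨W, hW⟩ : ∃ W, W = {F | F ∈ Exc d ∧ ‖vec d F‖ ≤ X} := ⟨_, rfl⟩
  rw [← hW]
  have hX0 : 0 ≤ X := by linarith
  have hsub : ∀ F ∈ W, (F.totalDegree = d ∧ ∀ m, |F.coeff m| ≤ ((⌊X⌋₊ : ℕ) : ℤ)) ∧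
      Irreducible (MvPolynomial.map (Int.castRingHom ℚ) F) ∧
      Squarefree (MvPolynomial.map (Int.castRingHom ℚ) (MvPolynomial.homogeneousComponent d F)) ∧
      ∃ x y : ℤ, MvPolynomial.eval ![x, y] F = 0 ∧
        ((d + 1) * ∑ m ∈ F.support, (F.coeff m).natAbs) ^ expo d < max x.natAbs y.natAbs := by
    intro F hF
    rw [hW] at hF
    obtain ⟨⟨h1, h2, h3, h4⟩, h5⟩ := hF
    exact ⟨⟨h1, coeff_le hX0 h1 h5⟩, h2, h3, h4⟩
  have hfin : W.Finite := by
    apply Set.Finite.subset (Finset.finite_toSet ((Bx ↥(Ix d) ⌊X⌋₊).image FM))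
    intro F hF
    have h1 := hsub F hF
    rw [Finset.mem_coe, Finset.mem_image]
    exact FM_memV.1 ⟨h1.1.1.le, h1.1.2⟩
  refine ⟨hfin, ?_⟩
  rw [Set.ncard_eq_toFinset_card W hfin]
  have h2 := Y_main hd ⌊X⌋₊ hfin.toFinset (by
    intro F hF
    rw [Set.Finite.mem_toFinset] at hF
    obtain ⟨⟨g1, g2⟩, g3, g4, g5⟩ := hsub F hF
    refine ⟨g1, g2, g3, by rw [g1]; exact g4, g5⟩)
  have h3 : hfin.toFinset.card ≤ 10 ^ 9 * 36 ^ d * (d + 1) ^ 8 * (2 * ⌊X⌋₊ + 1) ^ (4 * d - 2) := by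
    refine h2.trans ?_
    calc 2 * (NY d * (2 * ⌊X⌋₊ + 1) ^ (4 * d - 2)) = (2 * NY d) * (2 * ⌊X⌋₊ + 1) ^ (4 * d - 2) := by ring
      _ ≤ _ := Nat.mul_le_mul_right _ (two_NY_le d)
  have h4 : ((2 * ⌊X⌋₊ + 1 : ℕ) : ℝ) ≤ 3 * X := by
    push_cast
    have := Nat.floor_le hX0
    linarith
  have h5 : ((4 : ℝ) * d - 2) = ((4 * d - 2 : ℕ) : ℝ) := by
    rw [Nat.cast_sub (by omega)]
    push_cast
    ring
  rw [h5, Real.rpow_natCast]
  calc (hfin.toFinset.card : ℝ) ≤ ((10 ^ 9 * 36 ^ d * (d + 1) ^ 8 * (2 * ⌊X⌋₊ + 1) ^ (4 * d - 2) : ℕ) : ℝ) := by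
        exact_mod_cast h3
    _ = ((10 ^ 9 * 36 ^ d * (d + 1) ^ 8 : ℕ) : ℝ) * ((2 * ⌊X⌋₊ + 1 : ℕ) : ℝ) ^ (4 * d - 2) := by
        push_cast
        ring
    _ ≤ ((10 ^ 9 * 36 ^ d * (d + 1) ^ 8 : ℕ) : ℝ) * (3 * X) ^ (4 * d - 2) := by
        apply mul_le_mul_of_nonneg_left _ (Nat.cast_nonneg _)
        exact pow_le_pow_left₀ (Nat.cast_nonneg _) h4 _
    _ = _ := by
        rw [mul_pow]
        push_cast
        ring

lemma exc_thin {d : ℕ} (hd : 4 ≤ d) : Thin (Exc d) (vec d) ((4 : ℝ) * d - 2) := by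
  intro ε hε
  refine ⟨(10 ^ 9 * 36 ^ d * (d + 1) ^ 8 * 3 ^ (4 * d - 2) : ℕ), fun X hX => ?_⟩
  refine ⟨(exc_bound hd X hX).1, (exc_bound hd X hX).2.trans ?_⟩
  apply mul_le_mul_of_nonneg_left _ (Nat.cast_nonneg _)
  exact Real.rpow_le_rpow_of_exponent_le hX (by linarith)

/-- **Theorem.** Let `d ≥ 4` and let `M = (d + 1) (d + 2) / 2` be the number of the monomials of degree at most `d`.
(1) For `0 ≤ θ < 1` there is a set `E ⊆ ℝ ^ M` of Hausdorff dimension at most `1 + (4 d - 2) / (1 - θ)`, and of Lebesgue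
measure zero if `θ < 1 - (4 d - 2) / (M - 1)`, such that for each `α` outside `E` only finitely many polynomials
`F ∈ Exc d` lie in the neighbourhood of the ray through `α` which has radius `r ^ θ` at the point `r • α` (in the maximum
norm of the coefficients). (2) For all sequences `v ≥ 1` of exponent of convergence at most `τ ≥ 0` and all `θ < 1` there
is a set `E ⊆ ℝ ^ M` of Hausdorff dimension at most `(4 d - 2 + τ) / (1 - θ)` such that for each `α` outside `E` and all but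
finitely many `n`: no polynomial `F ∈ Exc d` has `‖vec d F - v n • α‖ ≤ (v n) ^ θ`. The sequences `b ^ n` and `(n + 1) ^ a`
have exponent of convergence at most `0` and `1 / a`. -/
theorem result (d : ℕ) (hd : 4 ≤ d) :
    (∀ θ : ℝ, 0 ≤ θ → θ < 1 →
      ∃ E : Set (↥(Ix d) → ℝ), dimH E ≤ ENNReal.ofReal (1 + (4 * d - 2) / (1 - θ)) ∧
        (θ < 1 - (4 * d - 2) / ((d + 1) * (d + 2) / 2 - 1) → volume E = 0) ∧
        ∀ α : ↥(Ix d) → ℝ, α ∉ E →
          {F : MvPolynomial (Fin 2) ℤ | F ∈ Exc d ∧ ∃ r : ℝ, 0 < r ∧ ‖vec d F - r • α‖ ≤ r ^ θ}.Finite) ∧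
    (∀ (v : ℕ → ℝ) (τ θ : ℝ), (∀ n, 1 ≤ v n) → 0 ≤ τ → ExpLe v τ → θ < 1 →
      ∃ E : Set (↥(Ix d) → ℝ), dimH E ≤ ENNReal.ofReal ((4 * d - 2 + τ) / (1 - θ)) ∧
        (θ < 1 - (4 * d - 2 + τ) / ((d + 1) * (d + 2) / 2) → volume E = 0) ∧
        ∀ α : ↥(Ix d) → ℝ, α ∉ E → ∃ n₀ : ℕ, ∀ n : ℕ, n₀ ≤ n →
          ∀ F : MvPolynomial (Fin 2) ℤ, F ∈ Exc d → (v n) ^ θ < ‖vec d F - v n • α‖) ∧
    (∀ b : ℝ, 1 < b → ExpLe (fun n : ℕ => b ^ n) 0) ∧
    (∀ a : ℝ, 0 < a → ExpLe (fun n : ℕ => ((n : ℝ) + 1) ^ a) (1 / a)) := by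
  have hd' : (4 : ℝ) ≤ d := by exact_mod_cast hd
  have hcard : (Fintype.card ↥(Ix d) : ℝ) = ((d : ℝ) + 1) * (d + 2) / 2 := by
    rw [Fintype.card_coe, card_Ix]
    have h2 : 2 ∣ (d + 1) * (d + 2) := (Nat.even_mul_succ_self (d + 1)).two_dvd
    rw [Nat.cast_div h2 (by norm_num)]
    push_cast
    ring
  have hM : (1 : ℝ) < ((d : ℝ) + 1) * (d + 2) / 2 := by nlinarith
  refine ⟨?_, ?_, fun b hb => expLe_geom b hb, fun a ha => expLe_pow a ha⟩
  · intro θ hθ0 hθ1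
    have h1θ : 0 < 1 - θ := by linarith
    have h1 := dim_badRay (S := Exc d) (pos := vec d) (s := (4 : ℝ) * d - 2) (by linarith) hθ0 hθ1 (exc_thin hd)
    refine ⟨BadRay (Exc d) (vec d) θ, h1, fun hθ2 => ?_, fun α hα => ?_⟩
    · refine null_of_dimH h1 ?_ ?_
      · have : 0 ≤ (4 * (d : ℝ) - 2) / (1 - θ) := div_nonneg (by linarith) h1θ.le
        linarith
      · rw [hcard]
        have hM1 : 0 < ((d : ℝ) + 1) * (d + 2) / 2 - 1 := by linarith
        have h2 : (4 * (d : ℝ) - 2) / (((d : ℝ) + 1) * (d + 2) / 2 - 1) < 1 - θ := by linarith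
        rw [div_lt_iff₀ hM1] at h2
        have h3 : (4 * (d : ℝ) - 2) / (1 - θ) < ((d : ℝ) + 1) * (d + 2) / 2 - 1 := by
          rw [div_lt_iff₀ h1θ]
          linarith
        linarith
    · exact Set.not_infinite.1 hα
  · intro v τ θ hv hτ hE hθ1
    have h1θ : 0 < 1 - θ := by linarith
    have h1 := dim_badWin (S := Exc d) (pos := vec d) (s := (4 : ℝ) * d - 2) hv hτ hE (by linarith) hθ1
      (exc_thin hd)
    refine ⟨BadWin (Exc d) (vec d) v θ, h1, fun hθ2 => ?_, fun α hα => ?_⟩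
    · refine null_of_dimH h1 ?_ ?_
      · exact div_nonneg (by linarith) h1θ.le
      · rw [hcard]
        have hM1 : 0 < ((d : ℝ) + 1) * (d + 2) / 2 := by linarith
        have h2 : (4 * (d : ℝ) - 2 + τ) / (((d : ℝ) + 1) * (d + 2) / 2) < 1 - θ := by linarith
        rw [div_lt_iff₀ hM1] at h2
        rw [div_lt_iff₀ h1θ]
        linarith
    · rw [BadWin] at hα
      by_contra hcon
      apply hα
      intro n1
      push Not at hcon
      obtain ⟨n, hn, F, hF, h2⟩ := hcon n1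
      exact ⟨n, hn, F, hF, h2⟩

end Pool.Agent.Results.MP_821da1_nt.AlmostAllDirections
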