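import Pool.Agent.V11286.RL.Cnt
import Pool.Agent.V11001.KM.Near

/-!
# Integer points on all curves with one lower coefficient near the powers of almost every number

Let `d ≥ 4`, let `μ` be a monomial of degree at most `d - 4` (for instance `μ = 1`), and let `δ ≥ 0`, `θ < 1` with
`(4 d - 2) δ + θ < 1`. We consider ALL the polynomials `F ∈ ℤ[x, y]` of degree `d` (irreducible over `ℚ`, leading form
squarefree over `ℚ` and, if it is irreducible over `ℚ`, restrictions of degree at least `d - 2` to all real lines) whose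
coefficients at the monomials of degree greater than `d - 4` are at most `|c| ^ δ`, where `c` is the coefficient of `F` at
`μ`; all the other coefficients are arbitrary integers. For almost every real `x > 1` all but finitely many of these `F`
with `| |c| - x ^ n | ≤ x ^ (θ n)` for some `n` satisfy `max(|x|, |y|) ≤ ((d + 1) h(F)) ^ C` for all their integer zeros.
-/

set_option autoImplicit false

open Finset Filter

namespace Pool.Agent.Results.MP_821da1_nt.LowerCoefficientNearPowers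

open Pool.Agent.V11286.RL
open Pool.Agent.V11001.KM (Fast Near)

/-- the coefficient of `F` at the monomial `x ^ i * y ^ j`, `μ = (i, j)` -/
noncomputable def co (μ : ℕ × ℕ) (F : MvPolynomial (Fin 2) ℤ) : ℤ :=
  F.coeff (Finsupp.single 0 μ.1 + Finsupp.single 1 μ.2)

/-- the polynomials in `Exc d` with coefficients at most `X` in absolute value at the monomials of degree greater than
`d - 4`, and arbitrary coefficients at the other monomials -/
def Upper (d X : ℕ) : Set (MvPolynomial (Fin 2) ℤ) :=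
  {F | F ∈ Exc d ∧ ∀ i j : ℕ, d ≤ i + j + 3 → |co (i, j) F| ≤ X}

/-- the polynomials `F` in `Exc d` with coefficients at most `|c| ^ δ` in absolute value at the monomials of degree greater
than `d - 4`, where `c` is the coefficient of `F` at the monomial `μ`, and arbitrary coefficients at the other monomials -/
def Small (d : ℕ) (μ : ℕ × ℕ) (δ : ℝ) : Set (MvPolynomial (Fin 2) ℤ) :=
  {F | F ∈ Exc d ∧ ∀ i j : ℕ, d ≤ i + j + 3 → |(co (i, j) F : ℝ)| ≤ |(co μ F : ℝ)| ^ δ}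

/-- the monomials of degree at most `d` -/
def J (d : ℕ) : Finset (ℕ × ℕ) := ((range (d + 1)) ×ˢ (range (d + 1))).filter fun p => p.1 + p.2 ≤ d

lemma mem_J {d : ℕ} {p : ℕ × ℕ} : p ∈ J d ↔ p.1 + p.2 ≤ d := by
  simp only [J, mem_filter, mem_product, mem_range]
  omega

lemma card_top {d : ℕ} (hd : 4 ≤ d) : (top d (J d)).card ≤ 4 * d - 2 := by
  have h1 : top d (J d) ⊆ (range 4).biUnion (fun k => antidiagonal (d - k)) := by
    intro p hp
    simp only [top, mem_filter] at hp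
    obtain ⟨h2, h3⟩ := hp
    rw [mem_J] at h2
    rw [mem_biUnion]
    refine ⟨d - (p.1 + p.2), ?_, ?_⟩
    · rw [mem_range]; omega
    · rw [Finset.HasAntidiagonal.mem_antidiagonal]; omega
  refine (card_le_card h1).trans (card_biUnion_le.trans ?_)
  simp only [Nat.card_antidiagonal, sum_range_succ, sum_range_zero]
  omega

lemma expo (m : Fin 2 →₀ ℕ) : m = Finsupp.single 0 (m 0) + Finsupp.single 1 (m 1) := by
  ext i
  fin_cases i <;> simp

lemma poly_cf {d : ℕ} {F : MvPolynomial (Fin 2) ℤ} (hF : F.totalDegree = d) :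
    poly (I := J d) (fun m => co m.1 F) = F := by
  classical
  ext m
  by_cases hm : (m 0, m 1) ∈ J d
  · have h1 := coeff_poly (I := J d) (fun m => co m.1 F) ⟨(m 0, m 1), hm⟩
    simp only at h1
    rw [← expo m] at h1
    rw [h1]
    simp only [co]
    rw [← expo m]
  · have h1 : F.coeff m = 0 := by
      by_contra hne
      have h2 : m ∈ F.support := MvPolynomial.mem_support_iff.2 hne
      have h3 := MvPolynomial.le_totalDegree h2
      rw [hF] at h3
      have h4 : (m.sum fun _ e => e) = m 0 + m 1 := by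
        rw [Finsupp.sum_fintype _ _ (fun _ => rfl), Fin.sum_univ_two]
      rw [mem_J] at hm
      simp only at hm
      omega
    rw [h1]
    unfold poly
    rw [MvPolynomial.coeff_sum]
    refine Finset.sum_eq_zero fun b _ => ?_
    rw [MvPolynomial.coeff_monomial, if_neg]
    intro h
    rw [expo m] at h
    obtain ⟨e1, e2⟩ := exp_inj h
    apply hm
    rw [← e1, ← e2]
    exact b.2

lemma deg_of {d : ℕ} {F : MvPolynomial (Fin 2) ℤ} (hF : F ∈ Exc d) : F.totalDegree = d := hF.1.1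

/-- finite sets of exceptional polynomials with bounded upper coefficients -/
lemma bound {d : ℕ} (hd : 4 ≤ d) (X : ℕ) (S : Finset (MvPolynomial (Fin 2) ℤ)) (hS : ∀ F ∈ S, F ∈ Upper d X) :
    S.card ≤ num d * (2 * X + 1) ^ (4 * d - 2) := by
  classical
  set g : MvPolynomial (Fin 2) ℤ → (J d → ℤ) := fun F m => co m.1 F with hg
  have hginj : Set.InjOn g S := by
    intro F hF F' hF' h
    rw [← poly_cf (deg_of (hS F hF).1), ← poly_cf (deg_of (hS F' hF').1)]
    exact congrArg poly h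
  set f : MvPolynomial (Fin 2) ℤ → (↥(top d (J d)) → ℤ) := fun F m => co m.1 F with hf
  have h1 := Finset.card_le_mul_card_image (f := f) S (num d) (by
    intro b _
    have h2 : ((S.filter fun F => f F = b).image g).card = (S.filter fun F => f F = b).card := by
      apply Finset.card_image_of_injOn
      exact hginj.mono (by
        intro F hF
        exact (Finset.mem_filter.1 hF).1)
    rw [← h2]
    apply fibre hd 0
    · intro c hc
      obtain ⟨F, hF, rfl⟩ := Finset.mem_image.1 hc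
      have h3 := (hS F (Finset.mem_filter.1 hF).1).1
      rw [zero_add, hg]
      simp only
      rw [poly_cf (deg_of h3)]
      exact h3
    · intro c hc c' hc' m hm
      obtain ⟨F, hF, rfl⟩ := Finset.mem_image.1 hc
      obtain ⟨F', hF', rfl⟩ := Finset.mem_image.1 hc'
      have e1 := (Finset.mem_filter.1 hF).2
      have e2 := (Finset.mem_filter.1 hF').2
      have hm' : m.1 ∈ top d (J d) := Finset.mem_filter.2 ⟨m.2, hm⟩
      exact congrFun (e1.trans e2.symm) ⟨m.1, hm'⟩)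
  have h2 : (S.image f).card ≤ (2 * X + 1) ^ (top d (J d)).card := by
    calc (S.image f).card ≤ (Fintype.piFinset (fun _ : ↥(top d (J d)) => Finset.Icc (-(X : ℤ)) X)).card := by
          apply Finset.card_le_card
          intro b hb
          obtain ⟨F, hF, rfl⟩ := Finset.mem_image.1 hb
          rw [Fintype.mem_piFinset]
          intro m
          rw [Finset.mem_Icc]
          exact abs_le.1 ((hS F hF).2 m.1.1 m.1.2 (Finset.mem_filter.1 m.2).2)
      _ = (2 * X + 1) ^ (top d (J d)).card := by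
          rw [Fintype.card_piFinset, Finset.prod_const, Int.card_Icc, Finset.card_univ, Fintype.card_coe]
          congr 1
          omega
  refine h1.trans (Nat.mul_le_mul_left _ (h2.trans ?_))
  exact Nat.pow_le_pow_right (by omega) (card_top hd)

lemma upper_fin {d : ℕ} (hd : 4 ≤ d) (X : ℕ) : (Upper d X).Finite := by
  by_contra hinf
  obtain ⟨S, hS, hcard⟩ := Set.Infinite.exists_subset_card_eq hinf (num d * (2 * X + 1) ^ (4 * d - 2) + 1)
  have h1 := bound hd X S (fun F hF => hS hF)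
  omega

lemma upper_card {d : ℕ} (hd : 4 ≤ d) (X : ℕ) : (Upper d X).ncard ≤ num d * (2 * X + 1) ^ (4 * d - 2) := by
  rw [Set.ncard_eq_toFinset_card _ (upper_fin hd X)]
  apply bound hd X
  intro F hF
  rwa [Set.Finite.mem_toFinset] at hF

lemma small_count {d : ℕ} (hd : 4 ≤ d) (μ : ℕ × ℕ) {δ : ℝ} (hδ : 0 ≤ δ) (X : ℝ) (hX : 1 ≤ X) :
    {F | F ∈ Small d μ δ ∧ |(co μ F : ℝ)| ≤ X}.Finite ∧
      (({F | F ∈ Small d μ δ ∧ |(co μ F : ℝ)| ≤ X}.ncard : ℕ) : ℝ) ≤
        ((num d * 3 ^ (4 * d - 2) : ℕ) : ℝ) * X ^ (((4 * d - 2 : ℕ) : ℝ) * δ) := by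
  have hX0 : (0 : ℝ) ≤ X := by linarith
  have hXδ : 1 ≤ X ^ δ := Real.one_le_rpow hX hδ
  have hsub : {F | F ∈ Small d μ δ ∧ |(co μ F : ℝ)| ≤ X} ⊆ Upper d ⌊X ^ δ⌋₊ := by
    rintro F ⟨⟨h1, h2⟩, h3⟩
    refine ⟨h1, fun i j hij => ?_⟩
    have h4 : |(co (i, j) F : ℝ)| ≤ X ^ δ :=
      (h2 i j hij).trans (Real.rpow_le_rpow (abs_nonneg _) h3 hδ)
    rw [← Int.cast_abs] at h4
    have h5 : (((co (i, j) F).natAbs : ℕ) : ℝ) ≤ X ^ δ := by
      rw [Nat.cast_natAbs]
      exact h4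
    have h6 : (co (i, j) F).natAbs ≤ ⌊X ^ δ⌋₊ := Nat.le_floor h5
    rw [Int.abs_eq_natAbs]
    exact_mod_cast h6
  refine ⟨(upper_fin hd _).subset hsub, ?_⟩
  have h3 := (Set.ncard_le_ncard hsub (upper_fin hd _)).trans (upper_card hd _)
  have h4 : ((2 * ⌊X ^ δ⌋₊ + 1 : ℕ) : ℝ) ≤ 3 * X ^ δ := by
    push_cast
    have := Nat.floor_le (show 0 ≤ X ^ δ by linarith)
    linarith
  calc (({F | F ∈ Small d μ δ ∧ |(co μ F : ℝ)| ≤ X}.ncard : ℕ) : ℝ)
      ≤ ((num d * (2 * ⌊X ^ δ⌋₊ + 1) ^ (4 * d - 2) : ℕ) : ℝ) := by exact_mod_cast h3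
    _ = (num d : ℝ) * ((2 * ⌊X ^ δ⌋₊ + 1 : ℕ) : ℝ) ^ (4 * d - 2) := by push_cast; ring
    _ ≤ (num d : ℝ) * (3 * X ^ δ) ^ (4 * d - 2) := by
        apply mul_le_mul_of_nonneg_left _ (Nat.cast_nonneg _)
        exact pow_le_pow_left₀ (Nat.cast_nonneg _) h4 _
    _ = _ := by
        rw [mul_pow, ← Real.rpow_natCast (X ^ δ), ← Real.rpow_mul hX0]
        push_cast
        ring_nf

lemma small_thin {d : ℕ} (hd : 4 ≤ d) (μ : ℕ × ℕ) {δ : ℝ} (hδ : 0 ≤ δ) (ε : ℝ) (hε : 0 < ε) :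
    ∃ C : ℝ, ∀ X : ℝ, 1 ≤ X → {F | F ∈ Small d μ δ ∧ |(co μ F : ℝ)| ≤ X}.Finite ∧
      (({F | F ∈ Small d μ δ ∧ |(co μ F : ℝ)| ≤ X}.ncard : ℕ) : ℝ) ≤ C * X ^ (((4 * d - 2 : ℕ) : ℝ) * δ + ε) := by
  refine ⟨((num d * 3 ^ (4 * d - 2) : ℕ) : ℝ), fun X hX => ⟨(small_count hd μ hδ X hX).1, ?_⟩⟩
  refine (small_count hd μ hδ X hX).2.trans ?_
  apply mul_le_mul_of_nonneg_left _ (Nat.cast_nonneg _)
  exact Real.rpow_le_rpow_of_exponent_le hX (by linarith)

lemma Small.mono {d : ℕ} {μ : ℕ × ℕ} {δ δ' : ℝ} (hδ : 0 < δ) (h : δ ≤ δ') : Small d μ δ ⊆ Small d μ δ' := by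
  rintro F ⟨h1, h2⟩
  refine ⟨h1, fun i j hij => (h2 i j hij).trans ?_⟩
  by_cases h3 : co μ F = 0
  · rw [h3]
    simp only [Int.cast_zero, abs_zero]
    rw [Real.zero_rpow hδ.ne', Real.zero_rpow (by linarith)]
  · apply Real.rpow_le_rpow_of_exponent_le _ h
    have := Int.one_le_abs h3
    exact_mod_cast this

lemma cast_eq {d : ℕ} (hd : 4 ≤ d) : ((4 * d - 2 : ℕ) : ℝ) = 4 * (d : ℝ) - 2 := by
  rw [Nat.cast_sub (by omega)]
  push_cast
  ring

/-- **Theorem.** (1) For all `d ≥ 4` and `X ≥ 0` there are at most `10 ^ 9 * 36 ^ d * (d + 1) ^ 8 * (2 X + 1) ^ (4 d - 2)`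
polynomials in `Exc d` with coefficients at most `X` at the monomials of degree greater than `d - 4` (and arbitrary other
coefficients). Let `ν m / log m → ∞`, for example `ν m = m`, and let `U` be a countable set of real numbers.
(2) For `d ≥ 4`, `δ ≥ 0` and `θ < 1` there is a set `S` of Hausdorff dimension at most `(4 d - 2) δ / (1 - θ)` such that for
all `x > 1` outside of `S`, all `y > 0` in `U` and all monomials `μ`: only finitely many `F ∈ Exc d` with coefficients at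
most `|c| ^ δ` at the monomials of degree greater than `d - 4`, `c` the coefficient at `μ`, satisfy
`| |c| - y x ^ (ν m) | ≤ x ^ (θ ν m)` for some `m`. (3) For almost every `x > 1` this holds for all `y > 0` in `U`, all
`d ≥ 4`, all monomials `μ`, all `δ > 0` and all `θ` with `(4 d - 2) δ + θ < 1`. -/
theorem result :
    (∀ d X : ℕ, 4 ≤ d → (Upper d X).encard ≤ (10 ^ 9 * 36 ^ d * (d + 1) ^ 8 * (2 * X + 1) ^ (4 * d - 2) : ℕ)) ∧
    ∀ ν : ℕ → ℝ, Fast ν → ∀ U : Set ℝ, U.Countable →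
      (∀ (d : ℕ) (δ θ : ℝ), 4 ≤ d → 0 ≤ δ → θ < 1 →
        ∃ S : Set ℝ, dimH S ≤ ENNReal.ofReal ((4 * d - 2) * δ / (1 - θ)) ∧
          ∀ x : ℝ, 1 < x → x ∉ S → ∀ y ∈ U, 0 < y → ∀ μ : ℕ × ℕ,
            {F | F ∈ Small d μ δ ∧ Near ν θ y x |(co μ F : ℝ)|}.Finite) ∧
      (∀ᵐ x : ℝ, 1 < x → ∀ y ∈ U, 0 < y → ∀ (d : ℕ) (μ : ℕ × ℕ) (δ θ : ℝ), 4 ≤ d → 0 < δ → (4 * d - 2) * δ + θ < 1 →
        {F | F ∈ Small d μ δ ∧ Near ν θ y x |(co μ F : ℝ)|}.Finite) := by
  refine ⟨fun d X hd => ?_, fun ν hν U hU => ⟨fun d δ θ hd hδ hθ => ?_, ?_⟩⟩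
  · rw [← (upper_fin hd X).cast_ncard_eq]
    exact_mod_cast upper_card hd X
  · have hs0 : 0 ≤ ((4 * d - 2 : ℕ) : ℝ) * δ := mul_nonneg (Nat.cast_nonneg _) hδ
    have h := fun μ : ℕ × ℕ => Pool.Agent.V11001.KM.family (fun F : MvPolynomial (Fin 2) ℤ => |(co μ F : ℝ)|) hν hs0 hθ
      U hU (fun _ : Unit => Small d μ δ) (fun _ ε hε => small_thin hd μ hδ ε hε)
    choose S h1 h2 using h
    refine ⟨⋃ μ, S μ, ?_, fun x hx hxS y hy hy0 μ => ?_⟩
    · rw [dimH_iUnion]
      refine iSup_le fun μ => (h1 μ).trans (le_of_eq ?_)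
      rw [cast_eq hd]
    · exact h2 μ x hx (fun h => hxS (Set.mem_iUnion.2 ⟨μ, h⟩)) y hy hy0 ()
  · have hall : ∀ᵐ x : ℝ, ∀ (d : ℕ) (μ : ℕ × ℕ) (δ : ℚ), 4 ≤ d → 0 ≤ (δ : ℝ) → 1 < x →
        ∀ θ : ℝ, θ < 1 - ((4 * d - 2 : ℕ) : ℝ) * (δ : ℝ) → ∀ y ∈ U, 0 < y →
          {F | F ∈ Small d μ δ ∧ Near ν θ y x |(co μ F : ℝ)|}.Finite := by
      rw [MeasureTheory.ae_all_iff]
      intro d
      rw [MeasureTheory.ae_all_iff]
      intro μ
      rw [MeasureTheory.ae_all_iff]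
      intro δ
      by_cases h : 4 ≤ d ∧ 0 ≤ (δ : ℝ)
      · have hs0 : 0 ≤ ((4 * d - 2 : ℕ) : ℝ) * (δ : ℝ) := mul_nonneg (Nat.cast_nonneg _) h.2
        filter_upwards [Pool.Agent.V11001.KM.ae_family (fun F : MvPolynomial (Fin 2) ℤ => |(co μ F : ℝ)|) hν hs0 U hU
          (fun _ : Unit => Small d μ δ) (fun _ ε hε => small_thin h.1 μ h.2 ε hε)] with x hx _ _ hx1 θ hθ y hy hy0
        exact hx hx1 θ hθ y hy hy0 ()
      · exact Eventually.of_forall fun x g1 g2 => absurd ⟨g1, g2⟩ h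
    filter_upwards [hall] with x hx hx1 y hy hy0 d μ δ θ hd hδ hθ
    have hd2 : (0 : ℝ) < 4 * d - 2 := by
      have : (4 : ℝ) ≤ d := by exact_mod_cast hd
      linarith
    obtain ⟨δ', hδ1, hδ2⟩ := exists_rat_btwn (show δ < (1 - θ) / (4 * d - 2) by
      rw [lt_div_iff₀ hd2]
      linarith)
    have h3 : θ < 1 - ((4 * d - 2 : ℕ) : ℝ) * (δ' : ℝ) := by
      rw [cast_eq hd]
      rw [lt_div_iff₀ hd2] at hδ2
      linarith
    refine (hx d μ δ' hd (hδ.trans hδ1).le hx1 θ h3 y hy hy0).subset ?_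
    rintro F ⟨hF1, hF2⟩
    exact ⟨Small.mono hδ hδ1.le hF1, hF2⟩

end Pool.Agent.Results.MP_821da1_nt.LowerCoefficientNearPowers
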