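import Pool.Agent.V11286.RL.Dim
import Pool.Agent.V11286.RL.Cnt

/-!
# Integer points on random perturbations of arbitrary plane curves

Let `F_1, F_2, …` be ANY sequence of integer polynomials in two variables, let `I` be a finite set of monomials, and let
`t` be the number of the monomials in `I` of degree greater than `d - 4`. We add to `F_n` all the polynomials with
monomials in `I` and integer coefficients in the windows of radius `v_n ^ θ` around the numbers `v_n α_m`, `m ∈ I`. For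
all `α ∈ ℝ ^ I` outside a set of dimension at most `(t + τ) / (1 - θ)` and all but finitely many `n` ALL the perturbed
curves (of degree `d`, irreducible over `ℚ`, with squarefree leading form and a mild condition on the restrictions to
lines) satisfy an explicit bound for their integer points, a power of the height of the equation. If the monomials of `I`
have degree at most `d - 4` (for instance if `I` contains only the constant) then `t = 0`; and `τ = 0` for `v_n = b ^ n`.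
-/

set_option autoImplicit false

open Finset MeasureTheory

namespace Pool.Agent.Results.MP_821da1_nt.RandomLowerTerms

open Pool.Agent.V11286.RL Pool.Agent.V35.WM

lemma exc_count {d : ℕ} (hd : 4 ≤ d) {I : Finset (ℕ × ℕ)} (F : MvPolynomial (Fin 2) ℤ) (X : ℝ) (hX : 1 ≤ X) :
    {c : I → ℤ | c ∈ {c : I → ℤ | F + poly c ∈ Exc d} ∧ ‖(fun m => (c m : ℝ) : I → ℝ)‖ ≤ X}.Finite ∧
      ({c : I → ℤ | c ∈ {c : I → ℤ | F + poly c ∈ Exc d} ∧ ‖(fun m => (c m : ℝ) : I → ℝ)‖ ≤ X}.ncard : ℝ) ≤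
        (num d * 3 ^ (top d I).card : ℕ) * X ^ (((top d I).card : ℕ) : ℝ) := by
  have hX0 : 0 ≤ X := by linarith
  have hsub : {c : I → ℤ | c ∈ {c : I → ℤ | F + poly c ∈ Exc d} ∧ ‖(fun m => (c m : ℝ) : I → ℝ)‖ ≤ X} ⊆
      {c : I → ℤ | (∀ m, |c m| ≤ ((⌊X⌋₊ : ℕ) : ℤ)) ∧ F + poly c ∈ Exc d} := by
    rintro c ⟨h1, h2⟩
    refine ⟨fun m => ?_, h1⟩
    have h3 := (pi_norm_le_iff_of_nonneg hX0).1 h2 m
    rw [Real.norm_eq_abs, ← Int.cast_abs] at h3
    have h4 : (((c m).natAbs : ℕ) : ℝ) ≤ X := by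
      rw [Nat.cast_natAbs]
      exact h3
    have h5 : (c m).natAbs ≤ ⌊X⌋₊ := Nat.le_floor h4
    rw [Int.abs_eq_natAbs]
    exact_mod_cast h5
  obtain ⟨h1, h2⟩ := count hd (I := I) F ⌊X⌋₊
  refine ⟨h1.subset hsub, ?_⟩
  have h3 := (Set.ncard_le_ncard hsub h1).trans h2
  have h4 : ((2 * ⌊X⌋₊ + 1 : ℕ) : ℝ) ≤ 3 * X := by
    push_cast
    have := Nat.floor_le hX0
    linarith
  calc (({c : I → ℤ | c ∈ {c : I → ℤ | F + poly c ∈ Exc d} ∧ ‖(fun m => (c m : ℝ) : I → ℝ)‖ ≤ X}.ncard : ℕ) : ℝ)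
      ≤ ((num d * (2 * ⌊X⌋₊ + 1) ^ (top d I).card : ℕ) : ℝ) := by exact_mod_cast h3
    _ = (num d : ℝ) * ((2 * ⌊X⌋₊ + 1 : ℕ) : ℝ) ^ (top d I).card := by push_cast; ring
    _ ≤ (num d : ℝ) * (3 * X) ^ (top d I).card := by
        apply mul_le_mul_of_nonneg_left _ (Nat.cast_nonneg _)
        exact pow_le_pow_left₀ (Nat.cast_nonneg _) h4 _
    _ = _ := by
        rw [Real.rpow_natCast]
        push_cast
        ring

/-- **Theorem.** Let `d ≥ 4`, let `I` be a finite set of monomials (the pair `(i, j)` is the monomial `x ^ i * y ^ j`) and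
`t` the number of the monomials in `I` of degree greater than `d - 4`. (1) For every `F ∈ ℤ[x, y]` and every `X` at most
`10 ^ 9 * 36 ^ d * (d + 1) ^ 8 * (2 X + 1) ^ t` of the polynomials `F + ∑ c_m m`, `m ∈ I`, with integers `|c_m| ≤ X` are in
`Exc d`. (2) For all sequences `F_n ∈ ℤ[x, y]`, all sequences `v ≥ 1` of exponent of convergence at most `τ ≥ 0` and all
`θ < 1` there is a set `E ⊆ ℝ ^ I` of Hausdorff dimension at most `(t + τ) / (1 - θ)`, and of Lebesgue measure zero if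
`t + τ < (1 - θ) #I`, such that for each `α` outside `E` and all but finitely many `n`: no polynomial `F_n + ∑ c_m m` with
integers `|c_m - v_n α_m| ≤ (v_n) ^ θ` is in `Exc d`. The sequences `b ^ n` and `(n + 1) ^ a` have exponent of convergence
at most `0` and `1 / a`. -/
theorem result (d : ℕ) (hd : 4 ≤ d) (I : Finset (ℕ × ℕ)) :
    (∀ (F : MvPolynomial (Fin 2) ℤ) (X : ℕ),
      {c : I → ℤ | (∀ m, |c m| ≤ X) ∧ F + poly c ∈ Exc d}.encard ≤
        (10 ^ 9 * 36 ^ d * (d + 1) ^ 8 * (2 * X + 1) ^ (top d I).card : ℕ)) ∧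
    (∀ (F : ℕ → MvPolynomial (Fin 2) ℤ) (v : ℕ → ℝ) (τ θ : ℝ), (∀ n, 1 ≤ v n) → 0 ≤ τ → ExpLe v τ → θ < 1 →
      ∃ E : Set (I → ℝ), dimH E ≤ ENNReal.ofReal (((top d I).card + τ) / (1 - θ)) ∧
        ((top d I).card + τ < (1 - θ) * I.card → volume E = 0) ∧
        ∀ α : I → ℝ, α ∉ E → ∃ n₀ : ℕ, ∀ n : ℕ, n₀ ≤ n → ∀ c : I → ℤ,
          (∀ m, |(c m : ℝ) - v n * α m| ≤ (v n) ^ θ) → F n + poly c ∉ Exc d) ∧
    (∀ b : ℝ, 1 < b → ExpLe (fun n : ℕ => b ^ n) 0) ∧
    (∀ a : ℝ, 0 < a → ExpLe (fun n : ℕ => ((n : ℝ) + 1) ^ a) (1 / a)) := by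
  refine ⟨fun F X => ?_, fun F v τ θ hv hτ hE hθ1 => ?_, fun b hb => expLe_geom b hb, fun a ha => expLe_pow a ha⟩
  · obtain ⟨h1, h2⟩ := count hd (I := I) F X
    rw [← h1.cast_ncard_eq]
    exact_mod_cast h2
  · have h1θ : 0 < 1 - θ := by linarith
    have h1 := dim_bad (S := fun n => {c : I → ℤ | F n + poly c ∈ Exc d}) (pos := fun c m => (c m : ℝ)) hv hτ hE
      (s := (((top d I).card : ℕ) : ℝ)) (Nat.cast_nonneg _) hθ1 (num d * 3 ^ (top d I).card : ℕ)
      (fun n X hX => exc_count hd (F n) X hX)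
    refine ⟨_, h1, fun hθ2 => ?_, fun α hα => ?_⟩
    · refine null_of_dimH h1 ?_ ?_
      · exact div_nonneg (by positivity) h1θ.le
      · rw [Fintype.card_coe, div_lt_iff₀ h1θ]
        linarith
    · by_contra hcon
      apply hα
      intro n1
      push Not at hcon
      obtain ⟨n, hn, c, hc, h2⟩ := hcon n1
      refine ⟨n, hn, c, h2, ?_⟩
      rw [pi_norm_le_iff_of_nonneg (Real.rpow_nonneg (by linarith [hv n]) _)]
      intro m
      rw [Real.norm_eq_abs]
      exact hc m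

end Pool.Agent.Results.MP_821da1_nt.RandomLowerTerms
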