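import Pool.Agent.V11270.SI.Top

/-!
# Effective Siegel theorem by trial and error, with few changes of mind, uniformly in families

Question Q1 asks for an algorithm which bounds the integer points on plane curves. We show that there is
such an algorithm if it is allowed to change its mind a small number of times: the number of changes is at
most the number of different real images of a number field `k` contained in the residue fields of the
unique places at infinity, and this number does not depend on the number of curves, finite or infinite,
which are treated simultaneously.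

In particular (part 2) this applies to all equations `N(x, y) + R(x, y) = 0`, where the form of degree `d ≥ 3`
of `N` is irreducible over `ℚ` and `R` is any polynomial of degree less than `d`: given `N`, one trial and error
algorithm bounds all integer solutions of all these equations, and it changes its mind at most once for each
real root of `N_d(T, 1)`.

Proof. The algorithm looks through all integer points of all the curves of the family and replaces its
bound when a point beats it. By the repulsion of large integer points (starting library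
`Pool.Agent.Y910.A`) two points which cause a change belong to real embeddings of `k` whose images are
almost linearly disjoint.
-/

set_option autoImplicit false

namespace Pool.Agent.Results.MP_821da1_nt.TrialAndError

/-- The polynomial in two variables with the coefficient list `L`: the entry `(i, j, a)` stands for
`a X^i Y^j`. -/
noncomputable def poly (L : List (ℕ × ℕ × ℤ)) : MvPolynomial (Fin 2) ℤ :=
  (L.map (fun t => MvPolynomial.monomial (Finsupp.single 0 t.1 + Finsupp.single 1 t.2.1) t.2.2)).sum

/-- The value at `(x, y)` of the polynomial with the coefficient list `L`. -/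
def value (L : List (ℕ × ℕ × ℤ)) (x y : ℤ) : ℤ := (L.map (fun t => t.2.2 * x ^ t.1 * y ^ t.2.1)).sum

/-- The size of a coefficient list: the sum of the absolute values of the coefficients. -/
def size (L : List (ℕ × ℕ × ℤ)) : ℕ := (L.map (fun t => t.2.2.natAbs)).sum

/-- The coordinate ring over `ℚ` of the affine plane curve `F = 0`. -/
abbrev CoordRing (F : MvPolynomial (Fin 2) ℤ) : Type :=
  MvPolynomial (Fin 2) ℚ ⧸ Ideal.span {MvPolynomial.map (Int.castRingHom ℚ) F}

/-- `A` is a place at infinity of the curve `F = 0`: a valuation ring of its function field `E`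
that contains `ℚ` but not both coordinate functions. -/
def AtInfinity (F : MvPolynomial (Fin 2) ℤ) (E : Type) [Field E] [Algebra (CoordRing F) E]
    (A : ValuationSubring E) : Prop :=
  (∀ q : ℚ, algebraMap (CoordRing F) E (algebraMap ℚ (CoordRing F) q) ∈ A) ∧
    ∃ i : Fin 2, algebraMap (CoordRing F) E (Ideal.Quotient.mk _ (MvPolynomial.X i)) ∉ A

/-- If the curve `F = 0` has exactly one place at infinity, then the residue field of this place
contains a copy of the field `k`. (Nothing is required if there are several places at infinity.) -/
def Admits (k : Type) [Field k] (F : MvPolynomial (Fin 2) ℤ) : Prop :=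
  ∀ (E : Type) [Field E] [Algebra (CoordRing F) E] [IsFractionRing (CoordRing F) E]
    (A : ValuationSubring E), (∀ A' : ValuationSubring E, AtInfinity F E A' ↔ A' = A) →
      Nonempty (k →+* IsLocalRing.ResidueField A)

/-- The images of the real embeddings of `k`, as subfields of `ℝ`. -/
def realImages (k : Type) [Field k] : Set (IntermediateField ℚ ℝ) :=
  {M | ∃ φ : k →+* ℝ, (M : Set ℝ) = Set.range φ}

/-- `M` and `M'` are almost linearly disjoint: `[M M' : ℚ] > [M : ℚ] [M' : ℚ] / 3`. -/
def Far (M M' : IntermediateField ℚ ℝ) : Prop :=
  Module.finrank ℚ M * Module.finrank ℚ M' < 3 * Module.finrank ℚ ↥(M ⊔ M')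

/-- The indices `n` at which the sequence `b` changes. -/
def changes (b : ℕ → ℕ) : Set ℕ := {n | b n ≠ b (n + 1)}

/-- The polynomial `F_d(T, 1)`, where `F_d` is the homogeneous part of degree `d` of `F`. -/
noncomputable def top (d : ℕ) (F : MvPolynomial (Fin 2) ℤ) : Polynomial ℚ :=
  MvPolynomial.aeval ![Polynomial.X, 1]
    (MvPolynomial.homogeneousComponent d (MvPolynomial.map (Int.castRingHom ℚ) F))

/-- **The integer points on plane curves are bounded by a trial and error algorithm, with few changes
of mind, uniformly in families.**
Part 1: computable families of curves such that every curve of the family with exactly one place at infinity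
has the field `k` in the residue field of this place.
Part 2: all equations `N(x, y) + R(x, y) = 0`, where `N` has degree `d ≥ 3`, the polynomial `N_d(T, 1)` is
irreducible of degree `d` over `ℚ`, and `R` is any polynomial of degree less than `d`. -/
theorem result :
    (∀ d : ℕ, ∃ K : ℕ, ∀ (P : Type) [Primcodable P] (c : P → ℕ → List (ℕ × ℕ × ℤ)),
      Computable₂ c → ∃ G : P → ℕ → ℕ, Computable₂ G ∧
        ∀ (p : P) (k : Type) [Field k] [NumberField k], 3 ≤ Module.finrank ℚ k →
          (∀ j, (poly (c p j)).totalDegree ≤ d ∧
            Irreducible (MvPolynomial.map (Int.castRingHom ℚ) (poly (c p j))) ∧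
            Admits k (poly (c p j))) →
          Monotone (G p) ∧
          (∃ T ⊆ realImages k, T.Pairwise Far ∧ (changes (G p)).encard ≤ T.encard) ∧
          (IsGalois ℚ k → (changes (G p)).encard ≤ 1) ∧
          ∃ n₀, ∀ n, n₀ ≤ n → ∀ (j : ℕ) (x y : ℤ), value (c p j) x y = 0 →
            max x.natAbs y.natAbs ≤ (G p n * size (c p j)) ^ K) ∧
    (∀ d : ℕ, 3 ≤ d → ∃ K : ℕ, ∃ G : List (ℕ × ℕ × ℤ) → ℕ → ℕ, Computable₂ G ∧
      ∀ N : List (ℕ × ℕ × ℤ), (poly N).totalDegree ≤ d → Irreducible (top d (poly N)) →
        (top d (poly N)).natDegree = d →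
        Monotone (G N) ∧
        (∃ T : Set (IntermediateField ℚ ℝ),
          (∀ M ∈ T, ∃ t : ℝ, Polynomial.aeval t (top d (poly N)) = 0 ∧
            M = IntermediateField.adjoin ℚ {t}) ∧
          T.Pairwise Far ∧ (changes (G N)).encard ≤ T.encard) ∧
        (changes (G N)).encard ≤ {t : ℝ | Polynomial.aeval t (top d (poly N)) = 0}.encard ∧
        ∃ n₀, ∀ n, n₀ ≤ n → ∀ R : List (ℕ × ℕ × ℤ), (∀ t ∈ R, t.1 + t.2.1 < d) → ∀ x y : ℤ,
          value N x y + value R x y = 0 →
          max x.natAbs y.natAbs ≤ (G N n * (size N + size R)) ^ K) := by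
  refine ⟨fun d => ?_, fun d hd => ?_⟩
  · obtain ⟨K, hK⟩ := V11270.SI.main d
    refine ⟨K, fun P _ c hc => ?_⟩
    obtain ⟨G, hG, h⟩ := hK P c hc
    refine ⟨G, hG, fun p k _ _ hk hcurves => ?_⟩
    obtain ⟨h1, ⟨T, hT1, hT2, hT3⟩, h3⟩ := h p k hk hcurves
    refine ⟨h1, ⟨T, hT1, hT2, hT3⟩, fun hgal => ?_, h3⟩
    refine hT3.trans ?_
    rw [Set.encard_le_one_iff_subsingleton]
    exact (V11270.SI.realImages_galois k).anti hT1
  · obtain ⟨K, G, hG, h⟩ := V11270.SI.thue d hd
    refine ⟨K, G, hG, fun N hN hirr hdeg => ?_⟩
    obtain ⟨h1, ⟨T, hT1, hT2, hT3⟩, h3⟩ := h N hN hirr hdeg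
    refine ⟨h1, ⟨T, hT1, hT2, hT3⟩, hT3.trans ?_, h3⟩
    have hsub : T ⊆ (fun t : ℝ => IntermediateField.adjoin ℚ {t}) ''
        {t : ℝ | Polynomial.aeval t (top d (poly N)) = 0} := by
      intro M hM
      obtain ⟨t, ht, rfl⟩ := hT1 M hM
      exact ⟨t, ht, rfl⟩
    exact (Set.encard_le_encard hsub).trans (Set.encard_image_le _ _)

end Pool.Agent.Results.MP_821da1_nt.TrialAndError
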